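import Mathlib
import Pool.Agent.Q7.CV.Art
import Pool.Agent.Y788.VRankG

/-!
# Real functions with even quadratic multiplicities on elementary abelian groups
-/

set_option autoImplicit false
set_option linter.unusedSectionVars false

namespace Pool.Agent.Q277.CL

open Pool.Agent.H302R2 Pool.Agent.H302R10 Pool.Agent.TH820 Pool.Agent.W446.AS Subgroup
  Pool.Agent.Y788 Pool.Agent.H541R3.ART Pool.Agent.Y788.V Pool.Agent.Q7.CV

theorem bound_comm {V : Type} [CommGroup V] [Finite V] {p m s : ℕ} (hp : p.Prime)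
    (hexp : ∀ v : V, v ^ p = 1) (hcard : Nat.card V = p ^ m) {τ : V → ℂ} (hτ : IsHeilbronn τ)
    (hreal : ∀ v, τ v⁻¹ = τ v) (hev : EvenQ τ) (h1 : τ 1 = s)
    (hfaith : ∀ v, τ v = τ 1 → v = 1) : 2 * m ≤ s := by
  classical
  have : Fintype V := Fintype.ofFinite V
  have : Finite (V →* ℂˣ) := finite_hom V
  have : Fintype (V →* ℂˣ) := Fintype.ofFinite _
  have hV : (Nat.card V : ℂ) ≠ 0 := by exact_mod_cast Nat.card_pos.ne'
  -- multiplicities
  choose M hM using fun ψ : V →* ℂˣ => hτ.mult_hom (MonoidHom.id V) ψ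
  simp only [MonoidHom.id_apply] at hM
  have hexpand : ∀ v, τ v = ∑ ψ : V →* ℂˣ, (M ψ : ℂ) * ((ψ v : ℂˣ) : ℂ) := by
    intro v
    apply mul_right_cancel₀ hV
    rw [Finset.sum_mul]
    have h2 : ∀ ψ : V →* ℂˣ, (M ψ : ℂ) * ((ψ v : ℂˣ) : ℂ) * (Nat.card V : ℂ)
        = ∑ w : V, τ w * ((ψ (w⁻¹ * v) : ℂˣ) : ℂ) := by
      intro ψ
      rw [mul_right_comm, ← hM ψ, Finset.sum_mul]
      refine Finset.sum_congr rfl fun w _ => ?_
      rw [map_mul, map_inv]
      push_cast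
      ring
    rw [Finset.sum_congr rfl (fun ψ _ => h2 ψ), Finset.sum_comm]
    have h3 : ∀ w : V, ∑ ψ : V →* ℂˣ, τ w * ((ψ (w⁻¹ * v) : ℂˣ) : ℂ)
        = if w = v then τ w * (Nat.card V : ℂ) else 0 := by
      intro w
      rw [← Finset.mul_sum, char_sum]
      by_cases hw : w = v
      · subst hw
        simp
      · rw [if_neg hw, if_neg (by rwa [inv_mul_eq_one]), mul_zero]
    rw [Finset.sum_congr rfl (fun w _ => h3 w), Finset.sum_ite_eq' Finset.univ v,
      if_pos (Finset.mem_univ _)]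
  have hsum : s = ∑ ψ : V →* ℂˣ, M ψ := by
    have h2 := hexpand 1
    rw [h1] at h2
    simp only [map_one, Units.val_one, mul_one] at h2
    exact_mod_cast h2
  -- inversion
  have hMinv : ∀ ψ : V →* ℂˣ, M ψ⁻¹ = M ψ := by
    intro ψ
    have h2 : (M ψ⁻¹ : ℂ) * (Nat.card V : ℂ) = (M ψ : ℂ) * (Nat.card V : ℂ) := by
      rw [← hM, ← hM, ← Equiv.sum_comp (Equiv.inv V)]
      refine Finset.sum_congr rfl fun w _ => ?_
      rw [Equiv.inv_apply, hreal, MonoidHom.inv_apply, map_inv, inv_inv]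
    exact_mod_cast mul_right_cancel₀ hV h2
  -- evenness
  have hMeven : ∀ ψ : V →* ℂˣ, (∀ v, ψ v * ψ v = 1) → Even (M ψ) := by
    intro ψ hψ
    obtain ⟨k, hk⟩ := hev.hom (MonoidHom.id V) ψ hψ
    simp only [MonoidHom.id_apply] at hk
    rw [hM] at hk
    have h2 := mul_right_cancel₀ hV hk
    exact ⟨k, by have : M ψ = 2 * k := by exact_mod_cast h2
                 omega⟩
  -- a minimal separating set
  let P : Finset (V →* ℂˣ) → Prop := fun B =>
    (∀ ψ ∈ B, M ψ ≠ 0) ∧ ∀ v : V, (∀ ψ ∈ B, ψ v = 1) → v = 1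
  have hP0 : P (Finset.univ.filter fun ψ => M ψ ≠ 0) := by
    refine ⟨fun ψ hψ => (Finset.mem_filter.mp hψ).2, fun v hv => hfaith v ?_⟩
    rw [hexpand v, hexpand 1]
    refine Finset.sum_congr rfl fun ψ _ => ?_
    by_cases h : M ψ = 0
    · rw [h, Nat.cast_zero, zero_mul, zero_mul]
    · rw [hv ψ (Finset.mem_filter.mpr ⟨Finset.mem_univ _, h⟩), map_one]
  obtain ⟨B, hB⟩ := exists_minimal_of_wellFoundedLT P ⟨_, hP0⟩
  have hBP := hB.prop
  have herase : ∀ φ ∈ B, ∃ v : V, (∀ ψ ∈ B, ψ ≠ φ → ψ v = 1) ∧ v ≠ 1 := by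
    intro φ hφ
    by_contra hcon
    push Not at hcon
    have h2 : P (B.erase φ) := by
      refine ⟨fun ψ hψ => hBP.1 ψ (Finset.mem_of_mem_erase hψ), fun v hv => ?_⟩
      exact hcon v fun ψ hψ hne => hv ψ (Finset.mem_erase.mpr ⟨hne, hψ⟩)
    have h3 := hB.le_of_le h2 (Finset.erase_subset φ B)
    exact Finset.notMem_erase φ B (h3 hφ)
  -- the size of `B`
  have hmB : m ≤ B.card := by
    have : NeZero p := ⟨hp.ne_zero⟩
    have hroot : ∀ (ψ : V →* ℂˣ) (v : V), ψ v ∈ rootsOfUnity p ℂ := by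
      intro ψ v
      rw [mem_rootsOfUnity, ← map_pow, hexp, map_one]
    let f : V → (B → rootsOfUnity p ℂ) := fun v ψ => ⟨ψ.1 v, hroot ψ.1 v⟩
    have hf : Function.Injective f := by
      intro v w hvw
      have h2 : v * w⁻¹ = 1 := by
        apply hBP.2
        intro ψ hψ
        have h3 := congrArg Subtype.val (congrFun hvw ⟨ψ, hψ⟩)
        change ψ v = ψ w at h3
        rw [map_mul, map_inv, h3, mul_inv_cancel]
      exact mul_inv_eq_one.mp h2
    have h2 := Nat.card_le_card_of_injective f hf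
    rw [Nat.card_fun, Complex.card_rootsOfUnity, hcard, Nat.card_eq_fintype_card,
      Fintype.card_coe] at h2
    exact (Nat.pow_le_pow_iff_right hp.one_lt).mp h2
  rcases eq_or_ne p 2 with hp2 | hp2
  · -- `p = 2`
    have h2 : ∀ ψ ∈ B, 2 ≤ M ψ := by
      intro ψ hψ
      have h3 := hBP.1 ψ hψ
      obtain ⟨k, hk⟩ := hMeven ψ (fun v => by rw [← map_mul, ← pow_two, ← hp2, hexp, map_one])
      omega
    calc 2 * m ≤ B.card * 2 := by omega
      _ = ∑ ψ ∈ B, 2 := by rw [Finset.sum_const, smul_eq_mul]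
      _ ≤ ∑ ψ ∈ B, M ψ := Finset.sum_le_sum h2
      _ ≤ ∑ ψ : V →* ℂˣ, M ψ := Finset.sum_le_sum_of_subset (Finset.subset_univ B)
      _ = s := hsum.symm
  · -- `p` odd
    have hpow : ∀ ψ : V →* ℂˣ, ψ ^ p = 1 := by
      intro ψ
      refine MonoidHom.ext fun v => ?_
      rw [MonoidHom.pow_apply, ← map_pow, hexp, map_one, MonoidHom.one_apply]
    have hne1 : ∀ ψ ∈ B, ψ ≠ 1 := by
      rintro ψ hψ rfl
      obtain ⟨v, hv, hv1⟩ := herase 1 hψ
      apply hv1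
      apply hBP.2
      intro φ hφ
      by_cases h : φ = 1
      · rw [h, MonoidHom.one_apply]
      · exact hv φ hφ h
    have hneinv : ∀ ψ ∈ B, ψ⁻¹ ≠ ψ := by
      intro ψ hψ h
      apply hne1 ψ hψ
      have h2 : ψ ^ 2 = 1 := by
        rw [pow_two]
        nth_rw 1 [← h]
        exact inv_mul_cancel ψ
      have h3 : orderOf ψ ∣ 2 := orderOf_dvd_of_pow_eq_one h2
      have h4 : orderOf ψ ∣ p := orderOf_dvd_of_pow_eq_one (hpow ψ)
      have h5 : Nat.Coprime p 2 := (Nat.coprime_primes hp Nat.prime_two).mpr hp2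
      have h6 : orderOf ψ ∣ 1 := by
        rw [← Nat.Coprime.gcd_eq_one h5]
        exact Nat.dvd_gcd h4 h3
      exact orderOf_eq_one_iff.mp (Nat.dvd_one.mp h6)
    have hinvB : ∀ ψ ∈ B, ψ⁻¹ ∉ B := by
      intro ψ hψ hψ'
      obtain ⟨v, hv, hv1⟩ := herase _ hψ'
      apply hv1
      apply hBP.2
      intro φ hφ
      by_cases h : φ = ψ⁻¹
      · rw [h, MonoidHom.inv_apply, hv ψ hψ (hneinv ψ hψ).symm, inv_one]
      · exact hv φ hφ h
    let B' : Finset (V →* ℂˣ) := B.image (fun ψ => ψ⁻¹)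
    have hdisj : Disjoint B B' := by
      rw [Finset.disjoint_left]
      intro ψ hψ hψ'
      obtain ⟨φ, hφ, h⟩ := Finset.mem_image.mp hψ'
      apply hinvB φ hφ
      rw [h]
      exact hψ
    have hsumB' : ∑ ψ ∈ B', M ψ = ∑ ψ ∈ B, M ψ := by
      have h3 : ∑ ψ ∈ B', M ψ = ∑ ψ ∈ B, M ψ⁻¹ :=
        Finset.sum_image (fun x _ y _ h => inv_injective h)
      rw [h3]
      exact Finset.sum_congr rfl fun ψ _ => hMinv ψ
    have hBsum : B.card ≤ ∑ ψ ∈ B, M ψ := by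
      calc B.card = ∑ ψ ∈ B, 1 := by rw [Finset.sum_const, smul_eq_mul, mul_one]
        _ ≤ _ := Finset.sum_le_sum fun ψ hψ => Nat.one_le_iff_ne_zero.mpr (hBP.1 ψ hψ)
    have h2 : ∑ ψ ∈ B ∪ B', M ψ ≤ ∑ ψ : V →* ℂˣ, M ψ :=
      Finset.sum_le_sum_of_subset (Finset.subset_univ _)
    rw [Finset.sum_union hdisj, hsumB'] at h2
    omega

end Pool.Agent.Q277.CL
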