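import Mathlib
import Pool.Agent.Q277.CL.Bound

/-!
# A local criterion at the central point
-/

set_option autoImplicit false
set_option linter.unusedSectionVars false

namespace Pool.Agent.Q277.CL

open Pool.Agent.H302R2 Pool.Agent.H302R10 Pool.Agent.TH820 Pool.Agent.W446.AS Subgroup
  Pool.Agent.Y788 Pool.Agent.H541R3.ART Pool.Agent.Y788.V Pool.Agent.Q7.CV ComplexConjugate

/-- Every representation `σ` of degree `r` of a Sylow `p`-subgroup `P` of `Q` is trivial if its
character is constant on the intersections of the conjugacy classes of `Q` with `P` and real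
valued, and contains the quadratic and trivial linear characters of the subgroups of `P` with even
multiplicities. -/
def TrivC (p r : ℕ) (Q : Type) [Group Q] : Prop :=
  ∀ (P : Sylow p Q) (σ : Representation ℂ (P : Subgroup Q) (Fin r → ℂ)),
    (∀ (x y : (P : Subgroup Q)) (g : Q), g * x * g⁻¹ = y → σ.character x = σ.character y) →
    (∀ x : (P : Subgroup Q), σ.character x⁻¹ = σ.character x) → EvenQ σ.character →
    ∀ x, σ x = 1

variable {Q : Type} [Group Q] [Finite Q]

/-- groups of large rank -/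
theorem trivC_of_rank {p m r : ℕ} (hp : p.Prime) (hr : r < 2 * m)
    (h : RankGe p m (⊥ : Subgroup Q)) : TrivC p r Q := by
  classical
  intro P σ hfus hreal hev
  have : Fact p.Prime := ⟨hp⟩
  let K : Subgroup Q := (MonoidHom.ker σ).map (P : Subgroup Q).subtype
  have hKmem : ∀ x : (P : Subgroup Q), (x : Q) ∈ K ↔ σ x = 1 := by
    intro x
    constructor
    · rintro ⟨y, hy, hyx⟩
      have : y = x := Subtype.ext hyx
      rw [← this]
      exact hy
    · intro hx
      exact ⟨x, hx, rfl⟩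
  have hKP : K ≤ (P : Subgroup Q) := by
    rintro _ ⟨y, -, rfl⟩
    exact y.2
  have hKs : ∀ x ∈ K, ∀ g : Q, g * x * g⁻¹ ∈ (P : Subgroup Q) → g * x * g⁻¹ ∈ K := by
    intro x hx g hg
    have hxP := hKP hx
    have hc := (hKmem ⟨x, hxP⟩).1 hx
    refine (hKmem ⟨g * x * g⁻¹, hg⟩).2 (rep_triv σ ?_)
    rw [← hfus ⟨x, hxP⟩ ⟨g * x * g⁻¹, hg⟩ g rfl]
    change LinearMap.trace ℂ _ (σ _) = LinearMap.trace ℂ _ (σ 1)
    rw [hc, map_one σ]
  by_cases hKt : K = P
  · intro x
    rw [← hKmem, hKt]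
    exact x.2
  exfalso
  obtain ⟨E, hKE, hEP, hidx, hpow, hcomm⟩ := h P K hKP (by simp) hKs hKt
  have hKn : (K.subgroupOf E).Normal := by
    refine ⟨fun x hx g => ?_⟩
    rw [Subgroup.mem_subgroupOf] at hx ⊢
    exact hKs x hx g (hEP (g * x * g⁻¹).2)
  let _ : CommGroup (E ⧸ K.subgroupOf E) :=
    { (inferInstance : Group (E ⧸ K.subgroupOf E)) with
      mul_comm := by
        intro a b
        obtain ⟨x, rfl⟩ := QuotientGroup.mk_surjective a
        obtain ⟨y, rfl⟩ := QuotientGroup.mk_surjective b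
        rw [← QuotientGroup.mk_mul, ← QuotientGroup.mk_mul, eq_comm, QuotientGroup.eq,
          Subgroup.mem_subgroupOf]
        have h1 := hcomm x⁻¹ (E.inv_mem x.2) y⁻¹ (E.inv_mem y.2)
        have h2 : (((y * x)⁻¹ * (x * y) : E) : Q)
            = (x : Q)⁻¹ * (y : Q)⁻¹ * (x : Q)⁻¹⁻¹ * (y : Q)⁻¹⁻¹ := by
          push_cast
          group
        rw [h2]
        exact h1 }
  let V := E ⧸ K.subgroupOf E
  have hV : Nat.card V = p ^ m := by
    rw [← hidx]
    rfl
  let ι : E →* (P : Subgroup Q) := Subgroup.inclusion hEP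
  have hin : ∀ e : E, σ (ι e) = 1 ↔ (e : V) = 1 := by
    intro e
    rw [← hKmem, QuotientGroup.eq_one_iff, Subgroup.mem_subgroupOf]
    rfl
  have : Fintype E := Fintype.ofFinite E
  -- the representation of the quotient
  let π : E →* V := QuotientGroup.mk' (K.subgroupOf E)
  have hπ : Function.Surjective π := QuotientGroup.mk'_surjective _
  let σV : Representation ℂ V (Fin r → ℂ) :=
    QuotientGroup.lift (K.subgroupOf E) (σ.comp ι) (fun x hx => (hin x).2
      ((QuotientGroup.eq_one_iff x).2 hx))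
  have hσV : ∀ e : E, σV (π e) = σ (ι e) := fun e => rfl
  have hσVc : ∀ e : E, σV.character (π e) = σ.character (ι e) := by
    intro e
    change LinearMap.trace ℂ _ (σV (π e)) = LinearMap.trace ℂ _ (σ (ι e))
    rw [hσV]
  have hb := bound_comm (V := V) (m := m) (s := r) hp (fun v => ?_) hV
    (rep_heilbronn σV) (fun v => ?_) ?_ ?_ (fun v hv => ?_)
  · omega
  · obtain ⟨e, rfl⟩ := hπ v
    rw [← map_pow]
    exact (QuotientGroup.eq_one_iff _).2 (by
      rw [Subgroup.mem_subgroupOf]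
      exact hpow e e.2)
  · obtain ⟨e, rfl⟩ := hπ v
    rw [← map_inv, hσVc, hσVc, map_inv, hreal]
  · -- evenness of the descended character
    intro H ψ hψ
    have : Fintype H := Fintype.ofFinite H
    let H' : Subgroup E := H.comap π
    have : Fintype H' := Fintype.ofFinite H'
    let q : H' →* H := (π.comp H'.subtype).codRestrict H (fun x => x.2)
    have hq : Function.Surjective q := by
      rintro ⟨v, hv⟩
      obtain ⟨e, rfl⟩ := hπ v
      exact ⟨⟨e, hv⟩, rfl⟩
    obtain ⟨k, hk⟩ := hev.hom (ι.comp H'.subtype) (ψ.comp q) (fun e => hψ _)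
    refine ⟨k, ?_⟩
    rw [finsum_eq_sum_of_fintype]
    have h1 := sum_comp_surj q hq (fun h : H => σV.character h * (((ψ h)⁻¹ : ℂˣ) : ℂ))
    have h2 : ∀ e : H', σV.character (q e : V) * (((ψ (q e))⁻¹ : ℂˣ) : ℂ)
        = σ.character ((ι.comp H'.subtype) e) * ((((ψ.comp q) e)⁻¹ : ℂˣ) : ℂ) := by
      intro e
      change σV.character (π e) * _ = _
      rw [hσVc]
      rfl
    rw [Finset.sum_congr rfl (fun e _ => h2 e), hk] at h1
    have h3 : Nat.card H' = Nat.card q.ker * Nat.card H := by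
      have h4 := Subgroup.card_eq_card_quotient_mul_card_subgroup q.ker
      rw [h4, mul_comm, Nat.card_congr (QuotientGroup.quotientKerEquivOfSurjective q hq).toEquiv]
    rw [h3] at h1
    have h5 : (Nat.card q.ker : ℂ) ≠ 0 := by exact_mod_cast Nat.card_pos.ne'
    apply mul_left_cancel₀ h5
    rw [← h1]
    push_cast
    ring
  · rw [Representation.char_one, Module.finrank_fin_fun]
  · have h1 := rep_triv σV hv
    obtain ⟨e, rfl⟩ := hπ v
    rw [hσV] at h1
    exact (hin e).1 h1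

/-- all elements of `p`-power order are in the kernel -/
theorem elements_of_trivC {τ : Q → ℂ} (hτ : IsHeilbronn τ) (hv : Virt τ)
    (hreal : ∀ x, τ x⁻¹ = τ x) (hev : EvenQ τ) {r : ℕ} (h1 : τ 1 = r)
    {p : ℕ} [Fact p.Prime] (hT : TrivC p r Q) (x : Q) (k : ℕ) (hx : x ^ p ^ k = 1) :
    τ x = τ 1 := by
  classical
  obtain ⟨P⟩ := (inferInstance : Nonempty (Sylow p Q))
  obtain ⟨σ, hσ⟩ := pgroup_rep P.2 (hτ.comp (P : Subgroup Q).subtype)
    (hv.comp (P : Subgroup Q).subtype) (s := r) (by rw [map_one]; exact h1)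
  have hσ' : ∀ a : (P : Subgroup Q), σ.character a = τ a := fun a => congrFun hσ a
  have hP : ∀ a : (P : Subgroup Q), σ a = 1 := by
    refine hT P σ ?_ ?_ ?_
    · intro a b g hab
      rw [hσ', hσ', ← hab]
      exact (hτ.conj a g).symm
    · intro a
      rw [hσ', hσ']
      exact hreal a
    · rw [hσ]
      exact hev.comp (P : Subgroup Q).subtype
  obtain ⟨c, hc⟩ := exists_conj_mem P hx
  have h2 : τ (c * x * c⁻¹) = τ 1 := by
    have h3 := hσ' ⟨c * x * c⁻¹, hc⟩
    change σ.character _ = τ (c * x * c⁻¹) at h3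
    rw [← h3]
    have h4 := hσ' 1
    change σ.character 1 = τ 1 at h4
    rw [← h4]
    change LinearMap.trace ℂ _ (σ _) = LinearMap.trace ℂ _ (σ 1)
    rw [hP, map_one σ]
  rw [← h2, hτ.conj]

/-- the local criterion for perfect groups -/
theorem const_of_local [hQ : Group.IsPerfect Q] {τ : Q → ℂ} (hτ : IsHeilbronn τ)
    (hv : Virt τ) (hreal : ∀ x, τ x⁻¹ = τ x) (hev : EvenQ τ) {r : ℕ} (h1 : τ 1 = r)
    (hT : ∀ p : ℕ, p.Prime → p ≤ r → p = 2 ∨ 5 ≤ r →
      (∃ m, r < 2 * m ∧ RankGe p m (⊥ : Subgroup Q)) ∨ TrivC p r Q) (x : Q) :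
    τ x = τ 1 := by
  have hel : ∀ p : ℕ, p.Prime → p ≤ r → p = 2 ∨ 5 ≤ r → ∀ (x : Q) (k : ℕ), x ^ p ^ k = 1 →
      τ x = τ 1 := by
    intro p hp hps hp2 x k hx
    have : Fact p.Prime := ⟨hp⟩
    refine elements_of_trivC hτ hv hreal hev h1 ?_ x k hx
    rcases hT p hp hps hp2 with ⟨m, hm, h⟩ | h
    · exact trivC_of_rank hp hm h
    · exact h
  have hxc : x ∈ commutator Q := by rw [hQ.commutator_eq_top]; exact mem_top x
  by_cases h5 : 5 ≤ r
  · exact commutator_ker hτ hv h1 (fun p hp hps x k hx => hel p hp hps (Or.inr h5) x k hx) x hxc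
  rcases Nat.lt_or_ge r 2 with h2 | h2
  · refine commutator_ker hτ hv h1 (fun p hp hps x k hx => ?_) x hxc
    have := hp.two_le
    omega
  · obtain ⟨N, hN, hN1, -, hN3⟩ := four_two hτ hv (by omega) h1
      (fun x k hx => hel 2 Nat.prime_two h2 (Or.inl rfl) x k hx)
    have hNt : N = ⊤ := by
      by_contra hne
      have hnt : Nontrivial (Q ⧸ N) := QuotientGroup.nontrivial_iff.2 hne
      exact Group.IsPerfect.not_isSolvable (Q ⧸ N) hN3
    exact hN1 x (by rw [hNt]; exact mem_top x)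

/-- **The local criterion at the central point.** -/
theorem central_local {G : Type} [Group G] [Finite G] {s₀ : ℂ} (hs : conj s₀ = s₀)
    (A : ArtinData G s₀) (hA : Pool.Agent.Q7.DB.Reflects A)
    (hev : ∀ (H : Subgroup G) (ψ : H →* ℂˣ), (∀ x, ψ x * ψ x = 1) →
      ∃ m : ℕ, meromorphicOrderAt (A.Lin H ψ) s₀ = ((2 * m : ℕ) : WithTop ℤ)) {r : ℕ}
    (hr : meromorphicOrderAt (A.Lin ⊥ 1) s₀ = (r : WithTop ℤ))
    (hT : ∀ p : ℕ, p.Prime → p ≤ r → p = 2 ∨ 5 ≤ r →
      (∃ m, r < 2 * m ∧ RankGe p m (⊥ : Subgroup (res G))) ∨ TrivC p r (res G)) :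
    (∀ χ ∈ Irr G, (∃ n ∈ res G, χ n ≠ χ 1) → meromorphicOrderAt (A.L χ) s₀ = 0) ∧
    ((∀ χ ∈ Irr G, (∀ n ∈ res G, χ n = χ 1) → IsMonomialChar χ) →
      ∀ χ ∈ Irr G, 0 ≤ meromorphicOrderAt (A.L χ) s₀) ∧
    ∀ U : Subgroup G, meromorphicOrderAt (A.Lin (U ⊔ res G) 1) s₀
      = meromorphicOrderAt (A.Lin U 1) s₀ := by
  classical
  have : Fintype G := Fintype.ofFinite G
  set θ : G → ℂ := theta A.ord with hθdef
  have hθ : IsHeilbronn θ := A.isHeilbronn
  have hv : Virt θ := theta_virt _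
  have h1 : θ 1 = r := A.theta_one hr
  have hreal : ∀ x, θ x⁻¹ = θ x := Pool.Agent.Q7.DB.theta_real hs hA
  have heq : EvenQ θ := evenQ_ord A hev
  have : Group.IsPerfect (res G) := res_perfect G
  have hres : ∀ a ∈ res G, θ a = θ 1 := by
    intro a ha
    have h2 := const_of_local (hθ.comp (res G).subtype) (hv.comp (res G).subtype)
      (fun x => hreal x) (heq.comp (res G).subtype) (r := r) (by rw [map_one]; exact h1) hT ⟨a, ha⟩
    rw [map_one] at h2
    exact h2
  have hconst := const_of_kernel hθ (res G) hres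
  have hzero : ∀ χ ∈ Irr G, (∃ n ∈ res G, χ n ≠ χ 1) → meromorphicOrderAt (A.L χ) s₀ = 0 := by
    rintro χ hχ ⟨x, hxN, hx⟩
    have h3 := pair_zero (θ := θ) hχ (res G) hconst hxN hx
    have h4 : pr θ χ = ((0 : ℤ) : ℂ) := by
      rw [pr_eq, h3, mul_zero]
      simp
    have h5 := ord_of_pr A hχ h4
    simpa using h5
  refine ⟨hzero, ?_, fun U => ?_⟩
  · intro hm χ hχ
    by_cases h2 : ∃ n ∈ res G, χ n ≠ χ 1
    · exact (hzero χ hχ h2).ge
    · push Not at h2
      obtain ⟨k, hk⟩ := pair_monomial hθ (hm χ hχ h2)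
      have h3 := A.order_eq hχ (k := (k : ℤ)) (by rw [hk]; push_cast; rfl)
      rw [h3]
      exact_mod_cast Int.natCast_nonneg k
  · apply Pool.Agent.Q7.DB.order_sup A
    intro χ hχ hne
    obtain ⟨d, ρ, hρ, rfl⟩ := exists_rep hχ
    refine ⟨d, ρ, rfl, fun x hx => ?_⟩
    rw [Pool.Agent.Q7.DB.mem_kr]
    apply Pool.Agent.Y788.V.rep_triv
    by_contra hcon
    apply hne
    have h4 := hzero _ hχ ⟨x, hx, hcon⟩
    rw [← A.coe_ord hχ] at h4
    exact_mod_cast h4

end Pool.Agent.Q277.CL
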